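import Pool.Agent.KS6_47.Rogers.Lim

set_option autoImplicit false

/-! A limit computable sequence of maps `ρ_p = π_p ∘ F` such that, for every `α` with two distinct
values `α i₀ ≠ α i₁`, the numberings `α ∘ ρ_p` are pairwise irreducible. -/

namespace Pool.Agent.KS6_47.Rogers

open Nat.Partrec (Code)

theorem limComp_F : LimComp F := by
  refine ⟨fun p => fs p.2 p.1, primrec_fs.to_comp.comp Computable.snd Computable.fst, fun a => ?_⟩
  exact fs_eq_F a

/-! ### A limit computable enumeration of functions containing all computable ones -/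

theorem exists_limit_G (e x : ℕ) : ∃ v t₀, ∀ t, t₀ ≤ t →
    (Code.evaln t (Denumerable.ofNat Code e) x).getD 0 = v := by
  by_cases h : ∃ s v, v ∈ Code.evaln s (Denumerable.ofNat Code e) x
  · obtain ⟨s, v, hv⟩ := h
    refine ⟨v, s, fun t ht => ?_⟩
    have := Code.evaln_mono ht hv
    rw [Option.mem_def] at this
    rw [this]; rfl
  · push Not at h
    refine ⟨0, 0, fun t _ => ?_⟩
    have : Code.evaln t (Denumerable.ofNat Code e) x = none :=
      Option.eq_none_iff_forall_not_mem.2 fun v => h t v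
    rw [this]; rfl

/-- value of the `e`-th partial computable function, `0` if undefined -/
noncomputable def G (z : ℕ × ℕ) : ℕ := (exists_limit_G z.1 z.2).choose

theorem limComp_G : LimComp G := by
  refine ⟨fun p => (Code.evaln p.2 (Denumerable.ofNat Code p.1.1) p.1.2).getD 0, ?_, fun a => ?_⟩
  · refine Primrec.to_comp (Primrec.option_getD.comp ?_ (Primrec.const 0))
    exact Code.primrec_evaln.comp
      ((Primrec.snd.pair ((Primrec.ofNat Code).comp (Primrec.fst.comp Primrec.fst))).pair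
        (Primrec.snd.comp Primrec.fst))
  · exact (exists_limit_G a.1 a.2).choose_spec

theorem exists_G (g : ℕ → ℕ) (hg : Computable g) : ∃ e, ∀ x, G (e, x) = g x := by
  obtain ⟨c, hc⟩ := Code.exists_code.1 (Partrec.nat_iff.1 hg.partrec)
  refine ⟨Encodable.encode c, fun x => ?_⟩
  obtain ⟨t₀, ht₀⟩ := (exists_limit_G (Encodable.encode c) x).choose_spec
  have h1 : g x ∈ c.eval x := by rw [hc]; simp
  obtain ⟨s, hs⟩ := Code.evaln_complete.1 h1
  have h2 : _ = G (Encodable.encode c, x) := ht₀ (max t₀ s) (le_max_left _ _)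
  have h3 := Code.evaln_mono (le_max_right t₀ s) hs
  rw [Option.mem_def] at h3
  rw [Denumerable.ofNat_encode, h3] at h2
  exact h2.symm

/-! ### The witnesses -/

/-- `wit ((s, b), w)`: `w` codes `(c, x₀, x₁)` and `s` codes `(p, q, e)` -/
noncomputable def wit (z : (ℕ × ℕ) × ℕ) : Bool :=
  decide (z.1.2 ≤ F z.2.unpair.2.unpair.1) && decide (z.1.2 ≤ F z.2.unpair.2.unpair.2) &&
  ((decide (z.2.unpair.1 = z.1.1.unpair.2.unpair.1) &&
      decide (z.2.unpair.2.unpair.2 = G (z.1.1.unpair.2.unpair.2, z.2.unpair.2.unpair.1))) ||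
   (decide (z.2.unpair.1 = z.1.1.unpair.1) &&
      !decide (F z.2.unpair.2.unpair.1 = F z.2.unpair.2.unpair.2) &&
      decide (F (G (z.1.1.unpair.2.unpair.2, z.2.unpair.2.unpair.1)) =
        F (G (z.1.1.unpair.2.unpair.2, z.2.unpair.2.unpair.2)))))

theorem wit_iff (s b c x₀ x₁ : ℕ) :
    wit ((s, b), Nat.pair c (Nat.pair x₀ x₁)) = true ↔
      (b ≤ F x₀ ∧ b ≤ F x₁) ∧
      ((c = s.unpair.2.unpair.1 ∧ x₁ = G (s.unpair.2.unpair.2, x₀)) ∨
       ((c = s.unpair.1 ∧ F x₀ ≠ F x₁) ∧
        F (G (s.unpair.2.unpair.2, x₀)) = F (G (s.unpair.2.unpair.2, x₁)))) := by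
  simp [wit]

theorem limComp_wit : LimComp wit := by
  have U := Computable.unpair
  have c1 : Computable (fun z : (ℕ × ℕ) × ℕ => z.2.unpair.1) :=
    Computable.fst.comp (U.comp Computable.snd)
  have c2 : Computable (fun z : (ℕ × ℕ) × ℕ => z.2.unpair.2.unpair.1) :=
    Computable.fst.comp (U.comp (Computable.snd.comp (U.comp Computable.snd)))
  have c3 : Computable (fun z : (ℕ × ℕ) × ℕ => z.2.unpair.2.unpair.2) :=
    Computable.snd.comp (U.comp (Computable.snd.comp (U.comp Computable.snd)))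
  have c4 : Computable (fun z : (ℕ × ℕ) × ℕ => z.1.1.unpair.1) :=
    Computable.fst.comp (U.comp (Computable.fst.comp Computable.fst))
  have c5 : Computable (fun z : (ℕ × ℕ) × ℕ => z.1.1.unpair.2.unpair.1) :=
    Computable.fst.comp (U.comp (Computable.snd.comp
      (U.comp (Computable.fst.comp Computable.fst))))
  have c6 : Computable (fun z : (ℕ × ℕ) × ℕ => z.1.1.unpair.2.unpair.2) :=
    Computable.snd.comp (U.comp (Computable.snd.comp
      (U.comp (Computable.fst.comp Computable.fst))))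
  have c7 : Computable (fun z : (ℕ × ℕ) × ℕ => z.1.2) := Computable.snd.comp Computable.fst
  have l1 : LimComp (fun z : (ℕ × ℕ) × ℕ => F z.2.unpair.2.unpair.1) :=
    limComp_F.comp (LimComp.of_computable c2)
  have l2 : LimComp (fun z : (ℕ × ℕ) × ℕ => F z.2.unpair.2.unpair.2) :=
    limComp_F.comp (LimComp.of_computable c3)
  have g1 : LimComp (fun z : (ℕ × ℕ) × ℕ => G (z.1.1.unpair.2.unpair.2, z.2.unpair.2.unpair.1)) :=
    limComp_G.comp (LimComp.of_computable (c6.pair c2))
  have g2 : LimComp (fun z : (ℕ × ℕ) × ℕ => G (z.1.1.unpair.2.unpair.2, z.2.unpair.2.unpair.2)) :=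
    limComp_G.comp (LimComp.of_computable (c6.pair c3))
  have dle : Computable₂ (fun a b : ℕ => decide (a ≤ b)) := Primrec.nat_le.decide.to_comp
  have deq : Computable₂ (fun a b : ℕ => decide (a = b)) := (Primrec.eq (α := ℕ)).decide.to_comp
  have band : Computable₂ (fun a b : Bool => a && b) := Primrec.and.to_comp
  have bor : Computable₂ (fun a b : Bool => a || b) := Primrec.or.to_comp
  have bnot : Computable (fun a : Bool => !a) := Primrec.not.to_comp
  unfold wit
  refine LimComp.post₂ band (LimComp.post₂ band (LimComp.post₂ dle (LimComp.of_computable c7) l1)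
    (LimComp.post₂ dle (LimComp.of_computable c7) l2)) (LimComp.post₂ bor ?_ ?_)
  · exact LimComp.post₂ band (LimComp.post₂ deq (LimComp.of_computable c1)
      (LimComp.of_computable c5)) (LimComp.post₂ deq (LimComp.of_computable c3) g1)
  · exact LimComp.post₂ band (LimComp.post₂ band (LimComp.post₂ deq (LimComp.of_computable c1)
      (LimComp.of_computable c4)) (LimComp.post bnot (LimComp.post₂ deq l1 l2)))
      (LimComp.post₂ deq (limComp_F.comp g1) (limComp_F.comp g2))

theorem exists_wit (z : ℕ × ℕ) : ∃ w, wit (z, w) = true := by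
  obtain ⟨s, b⟩ := z
  by_cases h : ∃ x, b ≤ F x ∧ b ≤ F (G (s.unpair.2.unpair.2, x))
  · obtain ⟨x, h1, h2⟩ := h
    exact ⟨_, (wit_iff s b s.unpair.2.unpair.1 x (G (s.unpair.2.unpair.2, x))).2
      ⟨⟨h1, h2⟩, Or.inl ⟨rfl, rfl⟩⟩⟩
  · push Not at h
    choose r hr using F_surj
    -- pigeonhole on the classes `b, …, 2 b`
    obtain ⟨i, hi, j, hj, hij, he⟩ := Finset.exists_ne_map_eq_of_card_lt_of_maps_to
      (s := Finset.range (b + 1)) (t := Finset.range b)
      (f := fun i => F (G (s.unpair.2.unpair.2, r (b + i)))) (by simp)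
      (fun i _ => by
        have := h (r (b + i)) (by rw [hr]; omega)
        simpa using this)
    exact ⟨_, (wit_iff s b s.unpair.1 (r (b + i)) (r (b + j))).2
      ⟨⟨by rw [hr]; omega, by rw [hr]; omega⟩, Or.inr ⟨⟨rfl, by rw [hr, hr]; omega⟩, he⟩⟩⟩

/-- least witness -/
noncomputable def Wt (z : ℕ × ℕ) : ℕ := Nat.find (exists_wit z)

theorem limComp_Wt : LimComp Wt := LimComp.find limComp_wit exists_wit

theorem Wt_spec (z : ℕ × ℕ) : wit (z, Wt z) = true := Nat.find_spec (exists_wit z)

/-- class numbers of the two points of the witness -/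
noncomputable def K0 (z : ℕ × ℕ) : ℕ := F (Wt z).unpair.2.unpair.1
noncomputable def K1 (z : ℕ × ℕ) : ℕ := F (Wt z).unpair.2.unpair.2

theorem limComp_K0 : LimComp K0 :=
  limComp_F.comp (LimComp.post (f := fun w : ℕ => w.unpair.2.unpair.1) (Computable.fst.comp
    (Computable.unpair.comp (Computable.snd.comp Computable.unpair))) limComp_Wt)

theorem limComp_K1 : LimComp K1 :=
  limComp_F.comp (LimComp.post (f := fun w : ℕ => w.unpair.2.unpair.2) (Computable.snd.comp
    (Computable.unpair.comp (Computable.snd.comp Computable.unpair))) limComp_Wt)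

/-- interval end points -/
noncomputable def B (s : ℕ) : ℕ :=
  Nat.rec 0 (fun s b => max (K0 (s, b)) (K1 (s, b)) + 2) s

theorem B_succ (s : ℕ) : B (s + 1) = max (K0 (s, B s)) (K1 (s, B s)) + 2 := rfl

theorem limComp_B : LimComp B := by
  have hmax : Computable₂ (fun a b : ℕ => max a b + 2) :=
    (Primrec.nat_add.comp (Primrec.nat_max.comp Primrec.fst Primrec.snd)
      (Primrec.const 2)).to_comp
  have hst : LimComp (fun z : ℕ × ℕ × ℕ => max (K0 (z.2.1, z.2.2)) (K1 (z.2.1, z.2.2)) + 2) :=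
    LimComp.post₂ (f := fun a b => max a b + 2) hmax (limComp_K0.comp (LimComp.of_computable Computable.snd))
      (limComp_K1.comp (LimComp.of_computable Computable.snd))
  exact LimComp.nat_rec (f := fun s : ℕ => s) (b := fun _ => 0)
    (LimComp.of_computable Computable.id) (LimComp.of_computable (Computable.const 0)) hst

theorem wit_data (s b : ℕ) : (b ≤ K0 (s, b) ∧ b ≤ K1 (s, b)) ∧
    (((Wt (s, b)).unpair.1 = s.unpair.2.unpair.1 ∧
        (Wt (s, b)).unpair.2.unpair.2 = G (s.unpair.2.unpair.2, (Wt (s, b)).unpair.2.unpair.1)) ∨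
     (((Wt (s, b)).unpair.1 = s.unpair.1 ∧ K0 (s, b) ≠ K1 (s, b)) ∧
        F (G (s.unpair.2.unpair.2, (Wt (s, b)).unpair.2.unpair.1)) =
          F (G (s.unpair.2.unpair.2, (Wt (s, b)).unpair.2.unpair.2)))) := by
  have h := Wt_spec (s, b)
  have e : Wt (s, b) = Nat.pair (Wt (s, b)).unpair.1
      (Nat.pair (Wt (s, b)).unpair.2.unpair.1 (Wt (s, b)).unpair.2.unpair.2) := by simp
  rw [e] at h
  exact (wit_iff s b _ _ _).1 h

theorem B_lt (s : ℕ) : B s < B (s + 1) := by
  rw [B_succ]
  have := (wit_data s (B s)).1.1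
  have := le_max_left (K0 (s, B s)) (K1 (s, B s))
  omega

theorem B_mono {s t : ℕ} (h : s ≤ t) : B s ≤ B t := monotone_nat_of_le_succ
  (fun n => (B_lt n).le) h

theorem le_B (s : ℕ) : s ≤ B s := by
  induction s with
  | zero => exact Nat.zero_le _
  | succ s ih => have := B_lt s; omega

/-- the stage at which `k` is treated -/
theorem exists_stage (k : ℕ) : ∃ s, decide (k < B (s + 1)) = true :=
  ⟨k, by have := le_B (k + 1); simp; omega⟩

noncomputable def St (k : ℕ) : ℕ := Nat.find (exists_stage k)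

theorem limComp_St : LimComp St := by
  have dlt : Computable₂ (fun a b : ℕ => decide (a < b)) := Primrec.nat_lt.decide.to_comp
  exact LimComp.find (P := fun z : ℕ × ℕ => decide (z.1 < B (z.2 + 1)))
    (LimComp.post₂ dlt (LimComp.of_computable Computable.fst)
      (limComp_B.comp (LimComp.of_computable (Computable.succ.comp Computable.snd)))) exists_stage

theorem St_eq {s k : ℕ} (h0 : B s ≤ k) (h1 : k < B (s + 1)) : St k = s := by
  unfold St
  rw [Nat.find_eq_iff]
  refine ⟨by simpa using h1, fun m hm => ?_⟩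
  have := B_mono (show m + 1 ≤ s by omega)
  simp; omega

/-- the map `π_p`, for given indices `i₀`, `i₁` -/
noncomputable def Pi (i₀ i₁ : ℕ) (z : ℕ × ℕ) : ℕ :=
  cond (decide (z.1 = (St z.2).unpair.1) && decide (z.2 = K0 (St z.2, B (St z.2)))) i₀
    (cond (decide (z.1 = (Wt (St z.2, B (St z.2))).unpair.1) &&
      decide (z.2 = K1 (St z.2, B (St z.2)))) i₁ (St z.2))

theorem limComp_Pi (i₀ i₁ : ℕ) : LimComp (Pi i₀ i₁) := by
  have deq : Computable₂ (fun a b : ℕ => decide (a = b)) := (Primrec.eq (α := ℕ)).decide.to_comp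
  have band : Computable₂ (fun a b : Bool => a && b) := Primrec.and.to_comp
  have u1 : Computable (fun a : ℕ => a.unpair.1) := Computable.fst.comp Computable.unpair
  have s1 : LimComp (fun z : ℕ × ℕ => St z.2) :=
    limComp_St.comp (LimComp.of_computable Computable.snd)
  have s2 : LimComp (fun z : ℕ × ℕ => (St z.2, B (St z.2))) := s1.pair (limComp_B.comp s1)
  have cnd : ∀ {c : ℕ × ℕ → Bool} {f : ℕ × ℕ → ℕ} (i : ℕ), LimComp c → LimComp f →
      LimComp (fun z => cond (c z) i (f z)) := by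
    intro c f i hc hf
    have : Computable₂ (fun (a : Bool) (b : ℕ) => cond a i b) :=
      Computable.cond Computable.fst (Computable.const i) Computable.snd
    exact LimComp.post₂ this hc hf
  unfold Pi
  refine cnd _ (LimComp.post₂ band (LimComp.post₂ deq (LimComp.of_computable Computable.fst)
    (LimComp.post (f := fun a : ℕ => a.unpair.1) u1 s1)) (LimComp.post₂ deq (LimComp.of_computable Computable.snd)
      (limComp_K0.comp s2))) (cnd _ (LimComp.post₂ band (LimComp.post₂ deq
      (LimComp.of_computable Computable.fst) (LimComp.post (f := fun a : ℕ => a.unpair.1) u1 (limComp_Wt.comp s2)))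
      (LimComp.post₂ deq (LimComp.of_computable Computable.snd) (limComp_K1.comp s2))) s1)

theorem Pi_surj (i₀ i₁ p s : ℕ) : ∃ k, Pi i₀ i₁ (p, k) = s := by
  have hB := B_succ s
  have h0 := (wit_data s (B s)).1.1
  have hl := le_max_left (K0 (s, B s)) (K1 (s, B s))
  have hr := le_max_right (K0 (s, B s)) (K1 (s, B s))
  have hS : St (B (s + 1) - 1) = s := St_eq (by omega) (by omega)
  refine ⟨B (s + 1) - 1, ?_⟩
  unfold Pi
  simp only [hS]
  have n0 : B (s + 1) - 1 ≠ K0 (s, B s) := by omega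
  have n1 : B (s + 1) - 1 ≠ K1 (s, B s) := by omega
  simp [n0, n1]

theorem Pi_diag {α : ℕ → Set ℕ} {i₀ i₁ : ℕ} (hi : α i₀ ≠ α i₁) {p q : ℕ} (hpq : p ≠ q) :
    ¬ Red (fun x => α (Pi i₀ i₁ (p, F x))) (fun x => α (Pi i₀ i₁ (q, F x))) := by
  rintro ⟨g, hg, hgx⟩
  obtain ⟨e, he⟩ := exists_G g hg
  let s := Nat.pair p (Nat.pair q e)
  have sp : s.unpair.1 = p := by simp [s]
  have sq : s.unpair.2.unpair.1 = q := by simp [s]
  have se : s.unpair.2.unpair.2 = e := by simp [s]
  have hB := B_succ s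
  have hl := le_max_left (K0 (s, B s)) (K1 (s, B s))
  have hr := le_max_right (K0 (s, B s)) (K1 (s, B s))
  obtain ⟨⟨h0, h1⟩, hw⟩ := wit_data s (B s)
  rw [sp, sq, se] at hw
  have hS0 : St (K0 (s, B s)) = s := St_eq h0 (by omega)
  have hS1 : St (K1 (s, B s)) = s := St_eq h1 (by omega)
  have v0 : Pi i₀ i₁ (p, K0 (s, B s)) = i₀ := by
    unfold Pi; simp only [hS0, sp]; simp
  apply hi
  rcases hw with ⟨w1, w2⟩ | ⟨⟨w1, w2⟩, w3⟩
  · -- second point has number `q`
    have v1 : Pi i₀ i₁ (q, K1 (s, B s)) = i₁ := by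
      unfold Pi; simp only [hS1, sp, w1]
      have : ¬ q = p := fun h => hpq h.symm
      simp [this]
    have h2 := hgx (Wt (s, B s)).unpair.2.unpair.1
    simp only at h2
    rw [← he, ← w2] at h2
    change α (Pi i₀ i₁ (p, K0 (s, B s))) = α (Pi i₀ i₁ (q, K1 (s, B s))) at h2
    rwa [v0, v1] at h2
  · have v1 : Pi i₀ i₁ (p, K1 (s, B s)) = i₁ := by
      unfold Pi; simp only [hS1, sp, w1]
      simp [w2.symm]
    have h2 := hgx (Wt (s, B s)).unpair.2.unpair.1
    have h3 := hgx (Wt (s, B s)).unpair.2.unpair.2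
    simp only at h2 h3
    rw [← he] at h2 h3
    rw [w3, ← h3] at h2
    change α (Pi i₀ i₁ (p, K0 (s, B s))) = α (Pi i₀ i₁ (p, K1 (s, B s))) at h2
    rwa [v0, v1] at h2

end Pool.Agent.KS6_47.Rogers
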