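import Pool.Agent.KS6_47.Rogers.Base

set_option autoImplicit false

/-! Limit computable functions (= functions computable from the halting problem): closure
properties, and composition of a `Σ⁰ₙ`-computable numbering with a limit computable function. -/

namespace Pool.Agent.KS6_47.Rogers

open Nat.Partrec (Code)

/-- `f` is the pointwise limit of a computable sequence of functions. -/
def LimComp {α β : Type} [Primcodable α] [Primcodable β] (f : α → β) : Prop :=
  ∃ g : α × ℕ → β, Computable g ∧ ∀ a, ∃ t₀, ∀ t, t₀ ≤ t → g (a, t) = f a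

/-- one step of a bounded search -/
def sst (c : Bool) (y IH : ℕ) : ℕ := bif IH == 0 then (bif c then y + 1 else 0) else IH

theorem sst_false (y : ℕ) : sst false y 0 = 0 := rfl
theorem sst_true (y : ℕ) : sst true y 0 = y + 1 := rfl
theorem sst_succ (c : Bool) (y Y : ℕ) : sst c y (Y + 1) = Y + 1 := rfl

namespace LimComp

variable {α β γ σ : Type} [Primcodable α] [Primcodable β] [Primcodable γ] [Primcodable σ]

theorem of_computable {f : α → β} (hf : Computable f) : LimComp f :=
  ⟨fun p => f p.1, hf.comp Computable.fst, fun _ => ⟨0, fun _ _ => rfl⟩⟩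

theorem comp {f : β → γ} {h : α → β} (hf : LimComp f) (hh : LimComp h) :
    LimComp (fun a => f (h a)) := by
  obtain ⟨gf, cf, lf⟩ := hf
  obtain ⟨gh, ch, lh⟩ := hh
  refine ⟨fun p => gf (gh p, p.2), cf.comp (ch.pair Computable.snd), fun a => ?_⟩
  obtain ⟨t₁, h₁⟩ := lh a
  obtain ⟨t₂, h₂⟩ := lf (h a)
  refine ⟨max t₁ t₂, fun t ht => ?_⟩
  simp only
  rw [h₁ t ((le_max_left _ _).trans ht), h₂ t ((le_max_right _ _).trans ht)]

theorem pair {f : α → β} {h : α → γ} (hf : LimComp f) (hh : LimComp h) :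
    LimComp (fun a => (f a, h a)) := by
  obtain ⟨gf, cf, lf⟩ := hf
  obtain ⟨gh, ch, lh⟩ := hh
  refine ⟨fun p => (gf p, gh p), cf.pair ch, fun a => ?_⟩
  obtain ⟨t₁, h₁⟩ := lf a
  obtain ⟨t₂, h₂⟩ := lh a
  refine ⟨max t₁ t₂, fun t ht => ?_⟩
  simp only
  rw [h₁ t ((le_max_left _ _).trans ht), h₂ t ((le_max_right _ _).trans ht)]

theorem post {f : β → γ} {h : α → β} (hf : Computable f) (hh : LimComp h) :
    LimComp (fun a => f (h a)) := (of_computable hf).comp hh

theorem post₂ {f : β → γ → σ} {h : α → β} {k : α → γ} (hf : Computable₂ f) (hh : LimComp h)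
    (hk : LimComp k) : LimComp (fun a => f (h a) (k a)) :=
  (of_computable (f := fun p : β × γ => f p.1 p.2) hf).comp (hh.pair hk)

theorem nat_rec {f : α → ℕ} {b : α → σ} {st : α × ℕ × σ → σ} (hf : LimComp f) (hb : LimComp b)
    (hst : LimComp st) :
    LimComp (fun a => (Nat.rec (b a) (fun y IH => st (a, y, IH)) (f a) : σ)) := by
  obtain ⟨gf, cf, lf⟩ := hf
  obtain ⟨gb, cb, lb⟩ := hb
  obtain ⟨gs, cs, ls⟩ := hst
  refine ⟨fun p => (Nat.rec (gb p) (fun y IH => gs ((p.1, y, IH), p.2)) (gf p) : σ), ?_,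
    fun a => ?_⟩
  · refine Computable.nat_rec (h := fun (p : α × ℕ) (q : ℕ × σ) => gs ((p.1, q.1, q.2), p.2))
      cf cb ?_
    refine cs.comp (Computable.pair (Computable.pair (Computable.fst.comp Computable.fst)
      (Computable.pair (Computable.fst.comp Computable.snd)
        (Computable.snd.comp Computable.snd))) (Computable.snd.comp Computable.fst))
  · obtain ⟨t₁, h₁⟩ := lf a
    have key : ∀ n, ∃ t₀, ∀ t, t₀ ≤ t →
        (Nat.rec (gb (a, t)) (fun y IH => gs ((a, y, IH), t)) n : σ) =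
          Nat.rec (b a) (fun y IH => st (a, y, IH)) n := by
      intro n
      induction n with
      | zero => exact lb a
      | succ n ih =>
        obtain ⟨t₂, h₂⟩ := ih
        obtain ⟨t₃, h₃⟩ := ls (a, n, Nat.rec (b a) (fun y IH => st (a, y, IH)) n)
        refine ⟨max t₂ t₃, fun t ht => ?_⟩
        have e2 := h₂ t ((le_max_left _ _).trans ht)
        have e3 := h₃ t ((le_max_right _ _).trans ht)
        simp only [e2, e3]
    obtain ⟨t₂, h₂⟩ := key (f a)
    refine ⟨max t₁ t₂, fun t ht => ?_⟩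
    simp only [h₁ t ((le_max_left _ _).trans ht)]
    exact h₂ t ((le_max_right _ _).trans ht)

theorem find {P : α × ℕ → Bool} (hP : LimComp P) (hex : ∀ a, ∃ y, P (a, y) = true) :
    LimComp (fun a => Nat.find (hex a)) := by
  obtain ⟨g, cg, lg⟩ := hP
  -- bounded search
  let bs : α × ℕ → ℕ → ℕ := fun p n =>
    Nat.rec 0 (fun y IH => sst (g ((p.1, y), p.2)) y IH) n
  have hbs : Computable (fun p : α × ℕ => bs p p.2) := by
    refine Computable.nat_rec (h := fun (p : α × ℕ) (q : ℕ × ℕ) =>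
      sst (g ((p.1, q.1), p.2)) q.1 q.2)
      Computable.snd (Computable.const 0) ?_
    have c1 : Computable (fun r : (α × ℕ) × (ℕ × ℕ) => r.2.2 == 0) :=
      (Primrec.beq (α := ℕ)).to_comp.comp (Computable.snd.comp Computable.snd)
        (Computable.const 0)
    have c2 : Computable (fun r : (α × ℕ) × (ℕ × ℕ) => g ((r.1.1, r.2.1), r.1.2)) :=
      cg.comp (Computable.pair (Computable.pair (Computable.fst.comp Computable.fst)
        (Computable.fst.comp Computable.snd)) (Computable.snd.comp Computable.fst))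
    exact Computable.cond c1 (Computable.cond c2 (Computable.succ.comp
      (Computable.fst.comp Computable.snd)) (Computable.const 0))
      (Computable.snd.comp Computable.snd)
  refine ⟨fun p => bs p p.2 - 1, (Primrec.nat_sub.comp Primrec.id (Primrec.const 1)).to_comp.comp
    hbs, fun a => ?_⟩
  have hY := Nat.find_spec (hex a)
  have hmin : ∀ y, y < Nat.find (hex a) → P (a, y) = false := fun y hy => by
    have := Nat.find_min (hex a) hy
    simpa using this
  obtain ⟨Y, hYd⟩ : ∃ Y, Y = Nat.find (hex a) := ⟨_, rfl⟩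
  rw [← hYd] at hY hmin
  have key : ∀ n, ∃ t₀, ∀ t, t₀ ≤ t → ∀ y, y < n → g ((a, y), t) = P (a, y) := by
    intro n
    induction n with
    | zero => exact ⟨0, fun _ _ y hy => absurd hy (Nat.not_lt_zero _)⟩
    | succ n ih =>
      obtain ⟨t₁, h₁⟩ := ih
      obtain ⟨t₂, h₂⟩ := lg (a, n)
      refine ⟨max t₁ t₂, fun t ht y hy => ?_⟩
      rcases Nat.lt_succ_iff_lt_or_eq.1 hy with h | rfl
      · exact h₁ t ((le_max_left _ _).trans ht) y h
      · exact h₂ t ((le_max_right _ _).trans ht)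
  obtain ⟨t₀, ht₀⟩ := key (Y + 1)
  refine ⟨max t₀ (Y + 1), fun t ht => ?_⟩
  have h0 : t₀ ≤ t := (le_max_left _ _).trans ht
  have h1 : Y + 1 ≤ t := (le_max_right _ _).trans ht
  have e0 : ∀ n, n ≤ Y → bs (a, t) n = 0 := by
    intro n
    induction n with
    | zero => intro _; rfl
    | succ n ih =>
      intro hn
      have e1 : bs (a, t) n = 0 := ih (by omega)
      have e2 : g ((a, n), t) = false := by
        rw [ht₀ t h0 n (by omega)]; exact hmin n (by omega)
      change sst (g ((a, n), t)) n (bs (a, t) n) = 0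
      rw [e1, e2, sst_false]
  have e1 : ∀ n, Y + 1 ≤ n → bs (a, t) n = Y + 1 := by
    intro n hn
    induction hn with
    | refl =>
      change sst (g ((a, Y), t)) Y (bs (a, t) Y) = Y + 1
      rw [e0 Y le_rfl, ht₀ t h0 Y (by omega), hY, sst_true]
    | @step m _ ih =>
      change sst (g ((a, m), t)) m (bs (a, t) m) = Y + 1
      rw [ih, sst_succ]
  simp only
  rw [e1 t h1, ← hYd]; simp

end LimComp

/-- `α ∘ ρ` is `Σ⁰ₙ` for `n ≥ 2`, `α` a `Σ⁰ₙ` numbering and `ρ` limit computable. -/
theorem sigma_comp_lim {n : ℕ} (hn : 2 ≤ n) {α : ℕ → Set ℕ}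
    (h : IsSigma n (fun z => z.unpair.2 ∈ α z.unpair.1)) {ρ : ℕ → ℕ} (hρ : LimComp ρ) :
    IsSigma n (fun z => z.unpair.2 ∈ α (ρ z.unpair.1)) := by
  obtain ⟨m, rfl⟩ : ∃ m, n = m + 1 := ⟨n - 1, by omega⟩
  obtain ⟨g, cg, lg⟩ := hρ
  -- the predicate `g (x, s + t) = k` on coded arguments
  have h0 : IsSigma 0 (fun u : ℕ =>
      g (u.unpair.1.unpair.1.unpair.1, u.unpair.1.unpair.2.unpair.2 + u.unpair.2)
        = u.unpair.1.unpair.2.unpair.1) := by
    have U := Primrec.unpair
    have f1 : Primrec (fun u : ℕ => u.unpair.1) := Primrec.fst.comp U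
    have f2 : Primrec (fun u : ℕ => u.unpair.2) := Primrec.snd.comp U
    refine Computable.computablePred ?_
    refine (Primrec.eq (α := ℕ)).decide.to_comp.comp (cg.comp (Computable.pair ?_ ?_)) ?_
    · exact (f1.comp (f1.comp f1)).to_comp
    · exact (Primrec.nat_add.comp (f2.comp (f2.comp f1)) f2).to_comp
    · exact (f1.comp (f2.comp f1)).to_comp
  have h1 : IsSigma 1 (fun v : ℕ => ∃ t, ¬
      (g (v.unpair.1.unpair.1, v.unpair.2.unpair.2 + t) = v.unpair.2.unpair.1)) :=
    ⟨_, h0, fun v => by simp⟩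
  have h2 : IsSigma (m + 1) (fun v : ℕ => ¬ ∃ t, ¬
      (g (v.unpair.1.unpair.1, v.unpair.2.unpair.2 + t) = v.unpair.2.unpair.1)) :=
    h1.not_succ.mono hn
  have h3 : IsSigma (m + 1) (fun v : ℕ => v.unpair.1.unpair.2 ∈ α v.unpair.2.unpair.1) := by
    have := h.comp (f := fun v => Nat.pair v.unpair.2.unpair.1 v.unpair.1.unpair.2)
      (Primrec₂.natPair.comp
        (Primrec.fst.comp (Primrec.unpair.comp (Primrec.snd.comp Primrec.unpair)))
        (Primrec.snd.comp (Primrec.unpair.comp (Primrec.fst.comp Primrec.unpair)))).to_comp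
    exact this.congr fun v => by simp
  refine (h2.and h3).ex.congr fun z => ?_
  simp only [Nat.unpair_pair, not_exists, not_not]
  constructor
  · intro hz
    obtain ⟨s, hs⟩ := lg z.unpair.1
    exact ⟨Nat.pair (ρ z.unpair.1) s, by simpa using ⟨fun t => hs (s + t) (by omega), hz⟩⟩
  · rintro ⟨w, hw, hz⟩
    have : ρ z.unpair.1 = w.unpair.1 := by
      obtain ⟨s, hs⟩ := lg z.unpair.1
      have h5 := hs (w.unpair.2 + s) (by omega)
      rw [← h5]; exact hw s
    rw [this]; exact hz

end Pool.Agent.KS6_47.Rogers
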